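import Mathlib

set_option autoImplicit false

namespace Pool.Agent.Lib.MP_4a6af7_co

open Finset
open scoped Classical

/-- number of pivot steps needed for `h` rows -/
def K (h : ℕ) : ℕ := 3 * Nat.log 2 h + 1

lemma K_spec (h : ℕ) : h * 3 ^ K h < 2 * 4 ^ K h := by
  unfold K
  have h1 : h < 2 ^ (Nat.log 2 h + 1) := Nat.lt_pow_succ_log_self (by norm_num) h
  generalize Nat.log 2 h = a at *
  have h2 : (54 : ℕ) ^ a ≤ 64 ^ a := Nat.pow_le_pow_left (by norm_num) a
  have e3 : (3 : ℕ) ^ (3 * a + 1) = 3 * 27 ^ a := by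
    rw [pow_succ, pow_mul]; norm_num; ring
  have e4 : (4 : ℕ) ^ (3 * a + 1) = 4 * 64 ^ a := by
    rw [pow_succ, pow_mul]; norm_num; ring
  have e5 : (54 : ℕ) ^ a = 2 ^ a * 27 ^ a := by rw [← mul_pow]; norm_num
  have p : 0 < (27 : ℕ) ^ a := by positivity
  have p2 : 0 < (64 : ℕ) ^ a := by positivity
  rw [e3, e4]
  rw [pow_succ] at h1
  nlinarith

variable {ι α : Type*}

/-- number of elements of `F q` in conflict with a pivot -/
noncomputable def loss (R : α → α → Prop) (F : ι → Finset α) (U : Finset ι) (y : ι → α) (q : ι) : ℕ :=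
  ((F q).filter (fun f => ∃ i ∈ U, R (y i) f)).card

/-- a nonempty rainbow set of pivots such that each unused row loses at most as many elements as
there are pivots -/
def Piv (R : α → α → Prop) (F : ι → Finset α) (I : Finset ι) : Prop :=
  ∃ U ⊆ I, U.Nonempty ∧ ∃ y : ι → α, (∀ i ∈ U, y i ∈ F i) ∧
    (∀ i ∈ U, ∀ j ∈ U, i ≠ j → ¬ R (y i) (y j)) ∧ ∀ q ∈ I, q ∉ U → loss R F U y q ≤ U.card

lemma avg (R : α → α → Prop) (F : ι → Finset α) (n D : ℕ) (A : Finset α) (Q : Finset ι)
    (L : ι → ℕ) (hF : ∀ q ∈ Q, (F q).card ≤ n)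
    (hX : ∀ e ∈ A, ∀ q ∈ Q, ((F q).filter (R e)).card ≤ 2)
    (hD : ∀ f, (A.filter (fun e => R e f)).card ≤ D) (hA : 3 * D * n < A.card) :
    ∃ e ∈ A, 2 * ∑ q ∈ Q, 2 ^ (L q + ((F q).filter (R e)).card) ≤ 3 * ∑ q ∈ Q, 2 ^ L q := by
  have hne : A.Nonempty := card_pos.mp (by omega)
  apply exists_le_of_sum_le hne
  have h1 : ∀ q ∈ Q, ∑ e ∈ A, ((F q).filter (R e)).card ≤ n * D := by
    intro q hq
    have : ∑ e ∈ A, ((F q).filter (R e)).card
        = ∑ f ∈ F q, (A.filter (fun e => R e f)).card := by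
      simp only [card_filter]
      exact sum_comm
    rw [this]
    calc _ ≤ ∑ _f ∈ F q, D := sum_le_sum (fun f _ => hD f)
      _ = (F q).card * D := by simp
      _ ≤ n * D := Nat.mul_le_mul_right _ (hF q hq)
  calc ∑ e ∈ A, 2 * ∑ q ∈ Q, 2 ^ (L q + ((F q).filter (R e)).card)
      = ∑ q ∈ Q, ∑ e ∈ A, 2 * 2 ^ (L q + ((F q).filter (R e)).card) := by
        simp only [mul_sum]; exact sum_comm
    _ ≤ ∑ q ∈ Q, 2 ^ L q * (3 * A.card) := by
        apply sum_le_sum
        intro q hq
        calc _ ≤ ∑ e ∈ A, 2 ^ L q * (2 + 3 * ((F q).filter (R e)).card) := by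
              apply sum_le_sum
              intro e he
              have := hX e he q hq
              generalize ((F q).filter (R e)).card = x at *
              rw [pow_add]
              have p : 0 < 2 ^ L q := by positivity
              interval_cases x <;> omega
          _ = 2 ^ L q * (2 * A.card + 3 * ∑ e ∈ A, ((F q).filter (R e)).card) := by
              rw [← mul_sum, sum_add_distrib, ← mul_sum]; simp [mul_comm]
          _ ≤ 2 ^ L q * (3 * A.card) := by
              apply Nat.mul_le_mul_left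
              have := h1 q hq
              nlinarith
    _ = ∑ _e ∈ A, 3 * ∑ q ∈ Q, 2 ^ L q := by
        rw [← sum_mul]; simp; ring

lemma process (a0 : α) (R : α → α → Prop) (hs : ∀ a b, R a b → R b a)
    (F : ι → Finset α) (I : Finset ι) (n D h : ℕ) (hF : ∀ q ∈ I, (F q).card ≤ n)
    (hI : I.card ≤ n) (P : Finset α) (hr : ∀ e ∈ P, R e e)
    (hX : ∀ e ∈ P, ∀ q ∈ I, ((F q).filter (R e)).card ≤ 2)
    (hD : ∀ f, (P.filter (fun e => R e f)).card ≤ D)
    (H : Finset ι) (hHI : H ⊆ I) (hH : H.card ≤ h)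
    (hP : ∀ e ∈ P, ∀ q ∈ I, q ∉ H → ∀ f ∈ F q, ¬ R e f) :
    Piv R F I ∨ ∃ U ⊆ I, U.card ≤ K h ∧ ∃ A ⊆ P, A.card ≤ 4 * D * n ∧
      ∀ e ∈ P, e ∉ A → ∀ q ∈ I, q ∉ U → e ∉ F q := by
  by_contra hcon
  rw [not_or] at hcon
  obtain ⟨hpiv, halt⟩ := hcon
  have key : ∀ k ≤ K h, ∃ U ⊆ H, U.card = k ∧ ∃ y : ι → α, (∀ i ∈ U, y i ∈ F i ∧ y i ∈ P) ∧
      (∀ i ∈ U, ∀ j ∈ U, i ≠ j → ¬ R (y i) (y j)) ∧
      (∑ q ∈ H \ U, 2 ^ loss R F U y q) * 2 ^ k ≤ h * 3 ^ k := by
    intro k
    induction k with
    | zero =>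
      intro _
      refine ⟨∅, empty_subset _, rfl, fun _ => a0, by simp, by simp, ?_⟩
      simpa [loss] using hH
    | succ k ih =>
      intro hk
      obtain ⟨U, hUH, hUc, y, hy, hyy, hpot⟩ := ih (by omega)
      set A := P.filter (fun e => (∀ i ∈ U, ¬ R (y i) e) ∧ ∃ q ∈ I, q ∉ U ∧ e ∈ F q) with hA
      have hAbig : 3 * D * n < A.card := by
        by_contra hsm
        apply halt
        refine ⟨U, hUH.trans hHI, by omega,
          A ∪ U.biUnion (fun i => P.filter (fun e => R e (y i))), ?_, ?_, ?_⟩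
        · intro e he
          rcases mem_union.mp he with he | he
          · exact (mem_filter.mp he).1
          · obtain ⟨i, _, hi⟩ := mem_biUnion.mp he
            exact (mem_filter.mp hi).1
        · have h1 : (U.biUnion (fun i => P.filter (fun e => R e (y i)))).card ≤ U.card * D :=
            card_biUnion_le_card_mul _ _ _ (fun i _ => hD _)
          have h2 : U.card ≤ n := (card_le_card (hUH.trans hHI)).trans hI
          have h3 := card_union_le A (U.biUnion (fun i => P.filter (fun e => R e (y i))))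
          have h4 : U.card * D ≤ n * D := Nat.mul_le_mul_right _ h2
          nlinarith
        · intro e he hne q hq hqU hef
          apply hne
          by_cases hc : ∀ i ∈ U, ¬ R (y i) e
          · exact mem_union_left _ (mem_filter.mpr ⟨he, hc, q, hq, hqU, hef⟩)
          · push Not at hc
            obtain ⟨i, hi, hR⟩ := hc
            exact mem_union_right _ (mem_biUnion.mpr ⟨i, hi, mem_filter.mpr ⟨he, hs _ _ hR⟩⟩)
      have hAP : A ⊆ P := filter_subset _ _
      obtain ⟨e, he, hle⟩ := avg R F n D A (H \ U) (loss R F U y)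
        (fun q hq => hF q (hHI (mem_sdiff.mp hq).1))
        (fun e he q hq => hX e (hAP he) q (hHI (mem_sdiff.mp hq).1))
        (fun f => (card_le_card (filter_subset_filter _ hAP)).trans (hD f)) hAbig
      obtain ⟨heP, hfree, q0, hq0I, hq0U, heF⟩ := mem_filter.mp he
      have hq0H : q0 ∈ H := by
        by_contra hn
        exact hP e heP q0 hq0I hn e heF (hr e heP)
      have hup : ∀ i ∈ U, Function.update y q0 e i = y i := fun i hi =>
        Function.update_of_ne (fun hh : i = q0 => hq0U (hh ▸ hi)) _ _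
      refine ⟨insert q0 U, insert_subset hq0H hUH, by rw [card_insert_of_notMem hq0U, hUc],
        Function.update y q0 e, ?_, ?_, ?_⟩
      · intro i hi
        rcases mem_insert.mp hi with rfl | hi
        · simp [heF, heP]
        · rw [hup i hi]; exact hy i hi
      · intro i hi j hj hij
        rcases mem_insert.mp hi with hi' | hi'
        · rcases mem_insert.mp hj with hj' | hj'
          · exact absurd (hi'.trans hj'.symm) hij
          · rw [hup j hj', hi', Function.update_self]
            exact fun hh => hfree j hj' (hs _ _ hh)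
        · rcases mem_insert.mp hj with hj' | hj'
          · rw [hup i hi', hj', Function.update_self]
            exact hfree i hi'
          · rw [hup i hi', hup j hj']; exact hyy i hi' j hj' hij
      · have h1 : ∑ q ∈ H \ insert q0 U, 2 ^ loss R F (insert q0 U) (Function.update y q0 e) q
            ≤ ∑ q ∈ H \ U, 2 ^ (loss R F U y q + ((F q).filter (R e)).card) := by
          calc _ ≤ ∑ q ∈ H \ insert q0 U, 2 ^ (loss R F U y q + ((F q).filter (R e)).card) := by
                apply sum_le_sum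
                intro q _
                apply Nat.pow_le_pow_right (by norm_num)
                unfold loss
                refine le_trans (card_le_card ?_) (card_union_le _ _)
                intro f hf
                obtain ⟨hfF, i, hi, hR⟩ := mem_filter.mp hf
                rcases mem_insert.mp hi with rfl | hi
                · rw [Function.update_self] at hR
                  exact mem_union_right _ (mem_filter.mpr ⟨hfF, hR⟩)
                · rw [hup i hi] at hR
                  exact mem_union_left _ (mem_filter.mpr ⟨hfF, i, hi, hR⟩)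
            _ ≤ _ := sum_le_sum_of_subset (sdiff_subset_sdiff (Subset.refl _) (subset_insert _ _))
        have p : 0 < 2 ^ k := by positivity
        rw [pow_succ, pow_succ]
        nlinarith
  obtain ⟨U, hUH, hUc, y, hy, hyy, hpot⟩ := key (K h) le_rfl
  apply hpiv
  refine ⟨U, hUH.trans hHI, card_pos.mp (by rw [hUc]; unfold K; omega), y,
    fun i hi => (hy i hi).1, hyy, ?_⟩
  intro q hq hqU
  by_cases hqH : q ∈ H
  · by_contra hlt
    have h1 : 2 ^ loss R F U y q ≤ ∑ q ∈ H \ U, 2 ^ loss R F U y q :=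
      single_le_sum (f := fun q => 2 ^ loss R F U y q) (fun _ _ => Nat.zero_le _)
        (mem_sdiff.mpr ⟨hqH, hqU⟩)
    have h2 : 2 ^ (K h + 1) ≤ 2 ^ loss R F U y q :=
      Nat.pow_le_pow_right (by norm_num) (by omega)
    have h3 := K_spec h
    have h4 : (4 : ℕ) ^ K h = 2 ^ K h * 2 ^ K h := by rw [← mul_pow]; norm_num
    have p : 0 < 2 ^ K h := by positivity
    rw [pow_succ] at h2
    nlinarith
  · have : loss R F U y q = 0 := by
      unfold loss
      rw [card_eq_zero, filter_eq_empty_iff]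
      rintro f hf ⟨i, hi, hR⟩
      exact hP _ (hy i hi).2 q hq hqH f hf hR
    omega

/-- If pivots always exist, a full rainbow selection exists. `Ok` is a property of rows that passes
to subsets. -/
lemma rainbow_of_piv (a0 : α) (R : α → α → Prop) (hs : ∀ a b, R a b → R b a)
    (Ok : Finset α → Prop) (hOk : ∀ s t, s ⊆ t → Ok t → Ok s) (N : ℕ)
    (hp : ∀ (I : Finset ι) (F : ι → Finset α), I.Nonempty → I.card ≤ N →
      (∀ q ∈ I, Ok (F q) ∧ (F q).card = I.card) → Piv R F I) :
    ∀ (m : ℕ) (I : Finset ι) (F : ι → Finset α), I.card = m → m ≤ N →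
      (∀ q ∈ I, Ok (F q) ∧ m ≤ (F q).card) →
      ∃ y : ι → α, (∀ i ∈ I, y i ∈ F i) ∧ ∀ i ∈ I, ∀ j ∈ I, i ≠ j → ¬ R (y i) (y j) := by
  intro m
  induction m using Nat.strong_induction_on with
  | _ m ih =>
    intro I F hI hN hF
    rcases I.eq_empty_or_nonempty with rfl | hne
    · exact ⟨fun _ => a0, by simp, by simp⟩
    have hex : ∀ q, ∃ s : Finset α, q ∈ I → s ⊆ F q ∧ s.card = m := by
      intro q
      by_cases hq : q ∈ I
      · obtain ⟨s, h1, h2⟩ := exists_subset_card_eq (hF q hq).2
        exact ⟨s, fun _ => ⟨h1, h2⟩⟩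
      · exact ⟨∅, fun h => absurd h hq⟩
    choose F' hF' using hex
    obtain ⟨U, hUI, hUne, y, hy, hyy, hl⟩ := hp I F' hne (by omega)
      (fun q hq => ⟨hOk _ _ (hF' q hq).1 (hF q hq).1, by rw [(hF' q hq).2, hI]⟩)
    have hUc : 0 < U.card := card_pos.mpr hUne
    have hUle : U.card ≤ m := hI ▸ card_le_card hUI
    have hc : (I \ U).card = m - U.card := by rw [card_sdiff_of_subset hUI, hI]
    obtain ⟨z, hz, hzz⟩ := ih (m - U.card) (by omega) (I \ U)
      (fun q => (F' q).filter (fun f => ¬ ∃ i ∈ U, R (y i) f)) hc (by omega) (by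
        intro q hq
        obtain ⟨hqI, hqU⟩ := mem_sdiff.mp hq
        refine ⟨hOk _ _ ((filter_subset _ _).trans (hF' q hqI).1) (hF q hqI).1, ?_⟩
        have h1 := card_filter_add_card_filter_not (s := F' q) (fun f => ∃ i ∈ U, R (y i) f)
        have h2 := hl q hqI hqU
        unfold loss at h2
        have h3 := (hF' q hqI).2
        omega)
    refine ⟨fun i => if i ∈ U then y i else z i, ?_, ?_⟩
    · intro i hi
      by_cases hiU : i ∈ U
      · simp only [hiU, if_true]; exact (hF' i hi).1 (hy i hiU)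
      · simp only [hiU, if_false]
        exact (hF' i hi).1 (mem_filter.mp (hz i (mem_sdiff.mpr ⟨hi, hiU⟩))).1
    · intro i hi j hj hij
      by_cases hiU : i ∈ U <;> by_cases hjU : j ∈ U <;> simp only [hiU, hjU, if_true, if_false]
      · exact hyy i hiU j hjU hij
      · exact fun hR => (mem_filter.mp (hz j (mem_sdiff.mpr ⟨hj, hjU⟩))).2 ⟨i, hiU, hR⟩
      · exact fun hR => (mem_filter.mp (hz i (mem_sdiff.mpr ⟨hi, hiU⟩))).2 ⟨j, hjU, hs _ _ hR⟩
      · exact hzz i (mem_sdiff.mpr ⟨hi, hiU⟩) j (mem_sdiff.mpr ⟨hj, hjU⟩) hij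

end Pool.Agent.Lib.MP_4a6af7_co
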