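import Mathlib
import Pool.Agent.Lib.MP_4a6af7_co.Pivot

set_option autoImplicit false

namespace Pool.Agent.Lib.MP_4a6af7_co

open Finset SimpleGraph
open scoped Classical

variable {V ι : Type*}

/-- two edges share a vertex -/
def Meet (e f : Sym2 V) : Prop := ∃ v, v ∈ e ∧ v ∈ f

/-- a matching of `G` -/
def IsM (G : SimpleGraph V) (s : Finset (Sym2 V)) : Prop :=
  (∀ e ∈ s, e ∈ G.edgeSet) ∧ ∀ e ∈ s, ∀ f ∈ s, e ≠ f → ∀ v, v ∈ e → v ∉ f

lemma meet_symm (e f : Sym2 V) (h : Meet e f) : Meet f e := by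
  obtain ⟨v, h1, h2⟩ := h
  exact ⟨v, h2, h1⟩

lemma meet_refl (e : Sym2 V) : Meet e e := ⟨e.out.1, Sym2.out_fst_mem e, Sym2.out_fst_mem e⟩

lemma card_meet (P : Finset (Sym2 V)) (d : ℕ) (h : ∀ v, (P.filter (fun e => v ∈ e)).card ≤ d)
    (f : Sym2 V) : (P.filter (fun e => Meet e f)).card ≤ 2 * d := by
  induction f using Sym2.ind with
  | _ a b =>
    have : P.filter (fun e => Meet e s(a, b)) ⊆
        P.filter (fun e => a ∈ e) ∪ P.filter (fun e => b ∈ e) := by
      intro e he
      obtain ⟨heP, v, h1, h2⟩ := mem_filter.mp he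
      rcases Sym2.mem_iff.mp h2 with rfl | rfl
      · exact mem_union_left _ (mem_filter.mpr ⟨heP, h1⟩)
      · exact mem_union_right _ (mem_filter.mpr ⟨heP, h1⟩)
    have h1 := card_le_card this
    have h2 := card_union_le (P.filter (fun e => a ∈ e)) (P.filter (fun e => b ∈ e))
    have := h a
    have := h b
    omega

lemma IsM.deg {G : SimpleGraph V} {s : Finset (Sym2 V)} (h : IsM G s) (v : V) :
    (s.filter (fun e => v ∈ e)).card ≤ 1 := by
  rw [card_le_one]
  intro e he f hf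
  by_contra hne
  exact h.2 e (mem_filter.mp he).1 f (mem_filter.mp hf).1 hne v (mem_filter.mp he).2
    (mem_filter.mp hf).2

lemma IsM.two {G : SimpleGraph V} {s : Finset (Sym2 V)} (h : IsM G s) (e : Sym2 V) :
    (s.filter (Meet e)).card ≤ 2 := by
  have := card_meet s 1 h.deg e
  refine le_trans (card_le_card ?_) this
  intro f hf
  exact mem_filter.mpr ⟨(mem_filter.mp hf).1, meet_symm _ _ (mem_filter.mp hf).2⟩

lemma deg_of_nbr (P : Finset (Sym2 V)) (v : V) (S : Set V) (d : ℕ) (hS : S.encard ≤ d)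
    (h : ∀ w, s(v, w) ∈ P → w ∈ S) : (P.filter (fun e => v ∈ e)).card ≤ d := by
  have hfin : S.Finite := Set.finite_of_encard_le_coe hS
  have h1 : P.filter (fun e => v ∈ e) ⊆ hfin.toFinset.image (fun w => s(v, w)) := by
    intro e he
    obtain ⟨heP, hv⟩ := mem_filter.mp he
    obtain ⟨w, rfl⟩ := Sym2.mem_iff_exists.mp hv
    exact mem_image.mpr ⟨w, by simpa using h w heP, rfl⟩
  have h2 : hfin.toFinset.card ≤ d := by
    have := hfin.encard_eq_coe_toFinset_card
    rw [this] at hS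
    exact_mod_cast hS
  exact (card_le_card h1).trans (card_image_le.trans h2)

lemma leaf_or_cycle (G : SimpleGraph V) (W : Finset (Sym2 V)) (hW : ∀ e ∈ W, e ∈ G.edgeSet)
    (hne : W.Nonempty) :
    (∃ u v, s(u, v) ∈ W ∧ ∀ f ∈ W, u ∈ f → f = s(u, v)) ∨
      ∃ P ⊆ W, G.egirth ≤ P.card ∧ ∀ v, (P.filter (fun e => v ∈ e)).card ≤ 2 := by
  set T : SimpleGraph V := fromEdgeSet (W : Set (Sym2 V)) with hT
  have hadj : ∀ a b, T.Adj a b ↔ s(a, b) ∈ W := by
    intro a b
    rw [hT, fromEdgeSet_adj]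
    exact ⟨fun h => h.1, fun h => ⟨h, G.ne_of_adj (hW _ h)⟩⟩
  have hle : T ≤ G := fun a b h => hW _ ((hadj a b).mp h)
  have hmem : ∀ e ∈ T.edgeSet, e ∈ W := by
    intro e
    induction e using Sym2.ind with
    | _ a b => exact fun h => (hadj a b).mp h
  by_cases hac : T.IsAcyclic
  · left
    obtain ⟨e0, he0⟩ := hne
    induction e0 using Sym2.ind with
    | _ a b =>
    have : Nonempty V := ⟨a⟩
    have : Finite T.edgeSet := (W.finite_toSet.subset hmem).to_subtype
    obtain ⟨u, v, p, hp, hmax⟩ := Walk.exists_isPath_forall_isPath_length_le_length T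
    have hab := (hadj a b).mpr he0
    have h1 := hmax a b (Walk.cons hab Walk.nil) (by simp [hab.ne])
    have hnil : ¬ p.Nil := by
      rw [Walk.not_nil_iff_lt_length]
      simp only [Walk.length_cons, Walk.length_nil] at h1
      omega
    refine ⟨u, p.snd, (hadj _ _).mp (p.adj_snd hnil), ?_⟩
    intro f hf hu
    obtain ⟨w, rfl⟩ := Sym2.mem_iff_exists.mp hu
    have huw := (hadj _ _).mpr hf
    have : w = p.snd := by
      apply hac.eq_snd_of_adj_start hp huw
      by_contra hn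
      have := hmax _ _ (p.cons huw.symm) (hp.cons hn)
      simp at this
    rw [this]
  · right
    unfold IsAcyclic at hac
    push Not at hac
    obtain ⟨u, c, hc⟩ := hac
    refine ⟨c.edges.toFinset, ?_, ?_, ?_⟩
    · intro e he
      exact hmem e (c.edges_subset_edgeSet (List.mem_toFinset.mp he))
    · rw [List.toFinset_card_of_nodup hc.edges_nodup, Walk.length_edges]
      have := egirth_le_length (hc.mapLe hle)
      rwa [Walk.length_mapLe] at this
    · intro v
      by_cases hv : v ∈ c.support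
      · have h2 := hc.ncard_neighborSet_toSubgraph_eq_two hv
        apply deg_of_nbr _ v (c.toSubgraph.neighborSet v)
        · have hfin : (c.toSubgraph.neighborSet v).Finite := Set.finite_of_ncard_ne_zero (by omega)
          rw [← hfin.cast_ncard_eq, h2]
        · intro w hw
          exact Walk.adj_toSubgraph_iff_mem_edges.mpr (List.mem_toFinset.mp hw)
      · apply deg_of_nbr _ v ∅ _ (by simp)
        intro w hw
        exact hv (c.fst_mem_support_of_mem_edges (List.mem_toFinset.mp hw))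

lemma piv_of_leaf (G : SimpleGraph V) (I : Finset ι) (F : ι → Finset (Sym2 V))
    (hF : ∀ q ∈ I, IsM G (F q)) (u v : V) (h1 : s(u, v) ∈ I.biUnion F)
    (h2 : ∀ f ∈ I.biUnion F, u ∈ f → f = s(u, v)) : Piv Meet F I := by
  obtain ⟨i, hi, hiF⟩ := mem_biUnion.mp h1
  refine ⟨{i}, by simpa using hi, by simp, fun _ => s(u, v), by simpa using hiF, by simp, ?_⟩
  intro q hq _
  rw [card_singleton]
  refine le_trans (card_le_card ?_) ((hF q hq).deg v)
  intro f hf
  obtain ⟨hfF, j, _, w, hw1, hw2⟩ := mem_filter.mp hf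
  refine mem_filter.mpr ⟨hfF, ?_⟩
  rcases Sym2.mem_iff.mp hw1 with rfl | rfl
  · rw [h2 f (mem_biUnion.mpr ⟨q, hq, hfF⟩) hw2]; simp
  · exact hw2

lemma card_covered {α : Type*} [DecidableEq α] (I U : Finset ι) (F : ι → Finset α) (n : ℕ) (hU : U ⊆ I)
    (hF : ∀ q ∈ I, (F q).card ≤ n) (P B : Finset α) (hP : P ⊆ I.biUnion F)
    (h : ∀ e ∈ P, e ∉ B → ∀ q ∈ I, q ∉ U → e ∉ F q) : P.card ≤ B.card + U.card * n := by
  have h1 : P ⊆ B ∪ U.biUnion F := by
    intro e he
    by_cases hB : e ∈ B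
    · exact mem_union_left _ hB
    · obtain ⟨q, hq, hqF⟩ := mem_biUnion.mp (hP he)
      have : q ∈ U := by
        by_contra hn
        exact h e he hB q hq hn hqF
      exact mem_union_right _ (mem_biUnion.mpr ⟨q, this, hqF⟩)
  have h2 : (U.biUnion F).card ≤ U.card * n :=
    card_biUnion_le_card_mul _ _ _ (fun q hq => hF q (hU hq))
  have h3 := card_union_le B (U.biUnion F)
  have h4 := card_le_card h1
  omega

lemma union_ne (I : Finset ι) (F : ι → Finset (Sym2 V)) (hne : I.Nonempty)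
    (hF : ∀ q ∈ I, (F q).card = I.card) : (I.biUnion F).Nonempty := by
  obtain ⟨q, hq⟩ := hne
  have : 0 < (F q).card := by rw [hF q hq]; exact card_pos.mpr ⟨q, hq⟩
  obtain ⟨e, he⟩ := card_pos.mp this
  exact ⟨e, mem_biUnion.mpr ⟨q, hq, he⟩⟩

lemma piv_log (G : SimpleGraph V) (N : ℕ) (hg : (((16 + K N) * N : ℕ) : ℕ∞) < G.egirth)
    (I : Finset ι) (F : ι → Finset (Sym2 V)) (hne : I.Nonempty) (hN : I.card ≤ N)
    (hF : ∀ q ∈ I, IsM G (F q) ∧ (F q).card = I.card) : Piv Meet F I := by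
  have hWne := union_ne I F hne (fun q hq => (hF q hq).2)
  have hW : ∀ e ∈ I.biUnion F, e ∈ G.edgeSet := by
    intro e he
    obtain ⟨q, hq, hqF⟩ := mem_biUnion.mp he
    exact (hF q hq).1.1 e hqF
  have hFN : ∀ q ∈ I, (F q).card ≤ N := fun q hq => (hF q hq).2 ▸ hN
  rcases leaf_or_cycle G _ hW hWne with ⟨u, v, h1, h2⟩ | ⟨P, hP, hPg, hPd⟩
  · exact piv_of_leaf G I F (fun q hq => (hF q hq).1) u v h1 h2
  · rcases process hWne.choose Meet meet_symm F I N 4 N hFN hN P (fun e _ => meet_refl e)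
      (fun e _ q hq => (hF q hq).1.two e) (card_meet P 2 hPd) I (Subset.refl _) hN
      (fun e _ q hq hq' => absurd hq hq') with h | ⟨U, hU, hUc, A, _, hA, h⟩
    · exact h
    · exfalso
      have h1 := card_covered I U F N hU hFN P A hP h
      have h2 : (16 + K N) * N < P.card := by exact_mod_cast lt_of_lt_of_le hg hPg
      have h3 : U.card * N ≤ K N * N := Nat.mul_le_mul_right _ hUc
      nlinarith

lemma piv_iter (G : SimpleGraph V) (N d j : ℕ) (hd : ∀ v, (G.neighborSet v).encard ≤ d)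
    (hg : ((((8 * d) ^ (j + 1) + K^[j] N) * N : ℕ) : ℕ∞) < G.egirth)
    (I : Finset ι) (F : ι → Finset (Sym2 V)) (hne : I.Nonempty) (hN : I.card ≤ N)
    (hF : ∀ q ∈ I, IsM G (F q) ∧ (F q).card = I.card) : Piv Meet F I := by
  have hWne := union_ne I F hne (fun q hq => (hF q hq).2)
  set W := I.biUnion F with hWdef
  have hW : ∀ e ∈ W, e ∈ G.edgeSet := by
    intro e he
    obtain ⟨q, hq, hqF⟩ := mem_biUnion.mp he
    exact (hF q hq).1.1 e hqF
  have hFN : ∀ q ∈ I, (F q).card ≤ N := fun q hq => (hF q hq).2 ▸ hN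
  have hdeg : ∀ P ⊆ W, ∀ f, (P.filter (fun e => Meet e f)).card ≤ 2 * d := by
    intro P hP
    apply card_meet
    intro v
    exact deg_of_nbr P v _ d (hd v) (fun w hw => hW _ (hP hw))
  by_contra hno
  have key : ∀ i : ℕ, ∃ U ⊆ I, U.card ≤ K^[i] N ∧ ∃ B : Finset (Sym2 V),
      B.card ≤ (8 * d) ^ (i + 1) * N ∧ ∀ e ∈ W, e ∉ B → ∀ q ∈ I, q ∉ U → e ∉ F q := by
    intro i
    induction i with
    | zero => exact ⟨I, Subset.refl _, hN, ∅, by simp, fun e _ _ q hq hq' => absurd hq hq'⟩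
    | succ i ih =>
      obtain ⟨H, hH, hHc, B, hB, hcov⟩ := ih
      set C := B.biUnion (fun f => W.filter (fun e => Meet e f)) with hC
      have hCc : C.card ≤ B.card * (2 * d) :=
        card_biUnion_le_card_mul _ _ _ (fun f _ => hdeg W (Subset.refl _) f)
      rcases process hWne.choose Meet meet_symm F I N (2 * d) (K^[i] N) hFN hN (W \ C)
        (fun e _ => meet_refl e) (fun e _ q hq => (hF q hq).1.two e)
        (hdeg _ sdiff_subset) H hH hHc (by
          intro e he q hq hqH f hf hm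
          obtain ⟨heW, heC⟩ := mem_sdiff.mp he
          have hfW : f ∈ W := mem_biUnion.mpr ⟨q, hq, hf⟩
          have hfB : f ∈ B := by
            by_contra hn
            exact hcov f hfW hn q hq hqH hf
          exact heC (mem_biUnion.mpr ⟨f, hfB, mem_filter.mpr ⟨heW, hm⟩⟩))
        with h | ⟨U, hU, hUc, A, _, hA, h⟩
      · exact absurd h hno
      · refine ⟨U, hU, by rwa [Function.iterate_succ_apply'], C ∪ A, ?_, ?_⟩
        · have h1 := card_union_le C A
          have h2 : B.card * (2 * d) ≤ (8 * d) ^ (i + 1) * N * (2 * d) :=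
            Nat.mul_le_mul_right _ hB
          rcases Nat.eq_zero_or_pos d with rfl | hd0
          · simp at hCc hA ⊢
            exact ⟨hCc, hA⟩
          · have h3 : 8 * d ≤ (8 * d) ^ (i + 1) := Nat.le_self_pow (by omega) _
            have h4 : 8 * d * N ≤ (8 * d) ^ (i + 1) * N := Nat.mul_le_mul_right _ h3
            rw [pow_succ (8 * d) (i + 1)]
            generalize (8 * d) ^ (i + 1) = x at *
            nlinarith
        · intro e he hn
          rw [mem_union, not_or] at hn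
          exact h e (mem_sdiff.mpr ⟨he, hn.1⟩) hn.2
  rcases leaf_or_cycle G _ hW hWne with ⟨u, v, h1, h2⟩ | ⟨P, hP, hPg, _⟩
  · exact hno (piv_of_leaf G I F (fun q hq => (hF q hq).1) u v h1 h2)
  · obtain ⟨U, hU, hUc, B, hB, h⟩ := key j
    have h1 := card_covered I U F N hU hFN W B (Subset.refl _) h
    have h2 : ((8 * d) ^ (j + 1) + K^[j] N) * N < P.card := by
      exact_mod_cast lt_of_lt_of_le hg hPg
    have h3 : U.card * N ≤ K^[j] N * N := Nat.mul_le_mul_right _ hUc
    have h4 := card_le_card hP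
    nlinarith

end Pool.Agent.Lib.MP_4a6af7_co
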